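import Pool.Agent.MP_75da70_an.H55.RData2

/-
The numbers attached to disjoint clopen sets and points.
-/

namespace Pool.Agent.MP_75da70_an.H8

open Filter Topology Set H7

/-- replace the `i`-th entry by two entries. -/
def i5ins {α : Type*} (l : List α) (i : ℕ) (u v : α) : List α :=
  l.take i ++ u :: v :: l.drop (i + 1)

theorem i5ins_zero {α : Type*} (a : α) (l : List α) (u v : α) :
    i5ins (a :: l) 0 u v = u :: v :: l := rfl

theorem i5ins_succ {α : Type*} (a : α) (l : List α) (i : ℕ) (u v : α) :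
    i5ins (a :: l) (i + 1) u v = a :: i5ins l i u v := rfl

theorem i5ins_length {α : Type*} {l : List α} {i : ℕ} (h : i < l.length) (u v : α) :
    (i5ins l i u v).length = l.length + 1 := by
  simp [i5ins]; omega

theorem i5ins_map {α β : Type*} (l : List α) (i : ℕ) (u v : α) (f : α → β) :
    (i5ins l i u v).map f = i5ins (l.map f) i (f u) (f v) := by
  simp [i5ins, List.map_take, List.map_drop]

theorem i5ins_mem {α : Type*} {l : List α} {i : ℕ} {u v x : α} (h : x ∈ i5ins l i u v) :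
    x ∈ l ∨ x = u ∨ x = v := by
  simp only [i5ins, List.mem_append, List.mem_cons] at h
  rcases h with h | h | h | h
  · exact Or.inl (List.mem_of_mem_take h)
  · exact Or.inr (Or.inl h)
  · exact Or.inr (Or.inr h)
  · exact Or.inl (List.mem_of_mem_drop h)

theorem i5_ofFn_update {α : Type*} {n : ℕ} (F : Fin n → α) (i : Fin n) (a : α) :
    List.ofFn (Function.update F i a) =
      (List.ofFn F).take i ++ a :: (List.ofFn F).drop (i + 1) := by
  have h : (i : ℕ) < (List.ofFn F).length := by simp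
  have e := List.set_eq_take_append_cons_drop (l := List.ofFn F) (i := i) (a := a)
  rw [if_pos h] at e
  rw [← e]
  refine List.ext_getElem (by simp) fun k h1 h2 => ?_
  simp only [List.getElem_ofFn, List.getElem_set, Function.update_apply, Fin.ext_iff]
  split_ifs <;> first | rfl | omega

theorem i5ins_update {α : Type*} {n : ℕ} (F : Fin n → α) (i : Fin n) (a u v : α) :
    i5ins (List.ofFn (Function.update F i a)) i u v = i5ins (List.ofFn F) i u v := by
  have h : ((List.ofFn F).take i).length = i := by simp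
  rw [i5_ofFn_update]
  simp only [i5ins]
  rw [List.take_left' h, List.drop_append, h]
  simp

variable {Ω : Type}

/-- iterated difference against the base point. -/
def i5D (q : Ω) (as : List Ω) (w : List Ω → ℂ) : ℂ := Dl (as.map fun a => (a, q)) w

theorem i5D_cons (q a : Ω) (as : List Ω) (w : List Ω → ℂ) :
    i5D q (a :: as) w = i5D q as (fun l => w (a :: l)) - i5D q as (fun l => w (q :: l)) := rfl

theorem i5D_sub (q : Ω) (as : List Ω) (u v : List Ω → ℂ) :
    i5D q as (fun l => u l - v l) = i5D q as u - i5D q as v := Dl_sub _ _ _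

theorem i5D_van (q : Ω) : ∀ (as : List Ω) (w : List Ω → ℂ), q ∈ as → i5D q as w = 0
  | a :: as, w, h => by
    rw [i5D_cons]
    rcases List.mem_cons.mp h with rfl | h
    · exact sub_self _
    · rw [i5D_van q as _ h, i5D_van q as _ h, sub_self]

theorem i5D_bdF (q : Ω) : ∀ (n : ℕ) (γ : Fin n → Ω) (w : List Ω → ℂ),
    ∑ i : Fin n, (-1) ^ (i : ℕ) * i5D q (i5ins (List.ofFn γ) i (γ i) (γ i)) w +
      i5D q (List.ofFn γ) (fun l => w (q :: l)) = i5D q (List.ofFn γ) (fun l => bdF q l w)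
  | 0, γ, w => by simp [i5D, Dl, bdF]
  | n + 1, γ, w => by
    have h1 := i5D_bdF q n (fun i => γ i.succ) (fun l => w (γ 0 :: l))
    have h2 := i5D_bdF q n (fun i => γ i.succ) (fun l => w (q :: l))
    rw [Fin.sum_univ_succ, List.ofFn_succ]
    simp only [Fin.val_zero, Fin.val_succ, i5ins_zero, i5ins_succ, i5D_cons, bdF, i5D_sub,
      pow_succ, mul_sub, Finset.sum_sub_distrib, mul_neg, mul_one, neg_mul,
      Finset.sum_neg_distrib]
    linear_combination h2 - h1

variable [TopologicalSpace Ω]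

theorem i5D_prodF (q : Ω) : ∀ (as : List Ω) (fs : List C(Ω, ℂ)), (∀ f ∈ fs, f q = 0) →
    i5D q as (prodF fs) = prodF fs as
  | [], _, _ => rfl
  | a :: as, [], _ => by simp only [i5D_cons, prodF, sub_self]
  | a :: as, f :: fs, h => by
    have := i5D_prodF q as fs fun g hg => h g (by simp [hg])
    simp only [i5D_cons, prodF, h f (by simp), zero_mul]
    simp only [i5D, Dl_mul, Dl_zero] at this ⊢
    rw [this, sub_zero]

theorem i5_prodF_ofFn : ∀ (n : ℕ) (F : Fin n → C(Ω, ℂ)) (γ : Fin n → Ω),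
    prodF (List.ofFn F) (List.ofFn γ) = ∏ i, F i (γ i)
  | 0, _, _ => by simp [prodF]
  | n + 1, F, γ => by
    rw [List.ofFn_succ, List.ofFn_succ, Fin.prod_univ_succ, prodF, i5_prodF_ofFn n]

theorem i5_prodF_lin (f g : C(Ω, ℂ)) (c : ℂ) (l₂ : List C(Ω, ℂ)) : ∀ (l₁ : List C(Ω, ℂ))
    (as : List Ω), prodF (l₁ ++ (f + c • g) :: l₂) as =
      prodF (l₁ ++ f :: l₂) as + c * prodF (l₁ ++ g :: l₂) as
  | [], [] => by simp [prodF]
  | [], a :: as => by simp [prodF]; ring
  | _ :: _, [] => by simp [prodF]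
  | x :: l₁, a :: as => by
    simp only [List.cons_append, prodF, i5_prodF_lin f g c l₂ l₁ as]; ring

theorem i5_DS_zero (q : Ω) : ∀ (l : List C(Ω, ℂ)) (θ : List C(Ω, ℂ) → ℂ),
    l.Pairwise (fun f g => f * g = 0) → (∀ f ∈ l, f q = 0) →
    (∀ l₁ l₂, l₁.length + l₂.length + 2 = l.length → θ (l₁ ++ 0 :: l₂) = 0) → DS q l θ = 0
  | [], _, _, _, _ => rfl
  | [f], θ, _, h, _ => by simp [DS, h f (by simp)]
  | f1 :: f2 :: l, θ, h1, h2, h3 => by
    have e : f1 * f2 = 0 := (List.pairwise_cons.mp h1).1 f2 (by simp)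
    rw [DS, e, i5_DS_zero q (f2 :: l) _ (List.pairwise_cons.mp h1).2
      (fun f hf => h2 f (List.mem_cons_of_mem _ hf))
      (fun l₁ l₂ hl => h3 (f1 :: l₁) l₂ (by simp at hl ⊢; omega)), sub_zero]
    exact h3 [] l (by simp)

omit [TopologicalSpace Ω] in
theorem i5D_cont (q : Ω) {X : Type} [TopologicalSpace X] : ∀ (as : List Ω)
    (U : X → List Ω → ℂ), (∀ l, Continuous fun x => U x l) → Continuous fun x => i5D q as (U x)
  | [], _, h => h []
  | a :: as, U, h => (i5D_cont q as (fun x l => U x (a :: l)) fun _ => h _).sub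
      (i5D_cont q as (fun x l => U x (q :: l)) fun _ => h _)

/-- separately continuous functions of lists. -/
def i5Sep (w : List Ω → ℂ) : Prop := ∀ l₁ l₂ : List Ω, Continuous fun x => w (l₁ ++ x :: l₂)

theorem i5Sep.cons {w : List Ω → ℂ} (h : i5Sep w) (a : Ω) : i5Sep fun l => w (a :: l) :=
  fun l₁ l₂ => h (a :: l₁) l₂

theorem i5Sep.i5D (q : Ω) (l₂ : List Ω) : ∀ (l₁ : List Ω) {w : List Ω → ℂ}, i5Sep w →
    Continuous fun x => i5D q (l₁ ++ x :: l₂) w
  | [], w, h => (i5D_cont q l₂ (fun x l => w (x :: l)) fun l => h [] l).sub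
      (continuous_const (y := H8.i5D q l₂ fun l => w (q :: l)))
  | a :: l₁, _, h => (i5Sep.i5D q l₂ l₁ (h.cons a)).sub (i5Sep.i5D q l₂ l₁ (h.cons q))

theorem i5Sep_prodF : ∀ fs : List C(Ω, ℂ), i5Sep (prodF fs)
  | [], [], _ => continuous_const
  | [], _ :: _, _ => continuous_const
  | f :: _, [], _ => f.continuous.mul continuous_const
  | _ :: fs, _ :: l₁, l₂ => continuous_const.mul (i5Sep_prodF fs l₁ l₂)

/-- the kernel attached to a list of functions and a list of points. -/
noncomputable def i5K (R : List C(Ω, ℂ) → Ω → List Ω → ℂ) (q : Ω) (fs : List C(Ω, ℂ))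
    (as : List Ω) : ℂ := i5D q as fun l => prodF fs l - R fs q (q :: l)

variable [CompactSpace Ω] {n : ℕ} {R : List C(Ω, ℂ) → Ω → List Ω → ℂ} {C : ℝ}

theorem i5K_lin (h : RData' n R C) (q : Ω) (l₁ l₂ : List C(Ω, ℂ)) (f g : C(Ω, ℂ)) (c : ℂ)
    (hl : l₁.length + l₂.length + 1 = n) (as : List Ω) :
    i5K R q (l₁ ++ (f + c • g) :: l₂) as =
      i5K R q (l₁ ++ f :: l₂) as + c * i5K R q (l₁ ++ g :: l₂) as := by
  simp only [i5K, i5D]
  rw [← Dl_mul, ← Dl_add]
  congr 1
  funext l
  rw [h.lin l₁ l₂ f g c hl, i5_prodF_lin]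
  ring

theorem i5K_unit (h : RData' (n + 2) R C) (q : Ω) (e' e f : C(Ω, ℂ)) (fs : List C(Ω, ℂ))
    (hl : fs.length = n) (h1 : e' * e = e) (h2 : e * f = f) (h3 : e' q = 0)
    (h4 : (f :: fs).Pairwise fun f g => f * g = 0) (h5 : ∀ g ∈ f :: fs, g q = 0)
    (as : List Ω) : i5K R q (e' :: f :: fs) as = i5K R q (e :: f :: fs) as := by
  simp only [i5K]
  congr 1
  funext l
  have hc := h.base.cob e' (e :: f :: fs) (by simp [hl]) q l q
  rw [DS, DS, DS, DS, h1, h2, h3, i5_DS_zero q (f :: fs) _ h4 h5,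
    i5_DS_zero q (f :: fs) _ h4 h5] at hc
  · linear_combination -hc
  · intro l₁ l₂ _
    have := i5_prodF_lin 0 0 1 l₂ (e' :: e :: l₁) l
    simpa using this
  · intro l₁ l₂ hl'
    have := h.lin (e' :: e :: l₁) l₂ 0 0 1 (by simp at hl' ⊢; omega) q (q :: l)
    simpa using this

theorem i5_gbf_prodF {I J : Type} : ∀ Fs : List (I → J → C(Ω, ℂ)), (∀ F ∈ Fs, Adm F) →
    GBF Fs.length (fun i j => prodF (Fs.map fun F => F i j)) 1
  | [], _ => fun cs h1 _ => by
    obtain rfl := List.length_eq_zero_iff.mp h1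
    exact G2.one
  | F :: Fs, hF => fun cs h1 h2 => by
    obtain ⟨c, cs, rfl⟩ := List.exists_cons_of_length_eq_add_one h1
    obtain ⟨Λ, g, lab, hg, hlab, hFe⟩ := hF F (by simp)
    have ih := i5_gbf_prodF Fs (fun F hF' => hF F (by simp [hF'])) cs (by simpa using h1)
      fun c hc => h2 c (by simp [hc])
    refine (G2.extract (fun (f : C(Ω, ℂ)) i j => f (c i j) *
      prodF (Fs.map fun F => F i j) (cs.map fun c => c i j))
      (fun f f' i j => by simp [add_mul]) (fun a f i j => by simp [mul_assoc]) zero_le_one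
      (fun f => ?_) hg hlab).congr fun i j => ?_
    · simpa using ih.mul_oneSide ((h2 c (by simp)).map f) (norm_nonneg f)
        fun _ _ => f.norm_coe_le_norm _
    · simp only [List.map_cons, prodF, hFe]

theorem i5K_g2 (h : RData' n R C) (q : Ω) {I J : Type} (Fs : List (I → J → C(Ω, ℂ)))
    (cs : List (I → J → Ω)) (h1 : Fs.length = n) (h2 : ∀ F ∈ Fs, Adm F) (h3 : cs.length = n)
    (h4 : ∀ c ∈ cs, OneSide c) :
    G2 (fun i j => i5K R q (Fs.map fun F => F i j) (cs.map fun c => c i j)) (2 ^ n * (1 + C)) := by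
  have a := (h.base.g2 I J Fs (fun _ => q) h1 h2).cons (OneSide.const q)
  have b := i5_gbf_prodF Fs h2
  rw [h1] at b
  have c := GBF.Dl (cs.map fun c => (c, fun _ _ => q)) (C := 1 + C)
    (U := fun i j l => prodF (Fs.map fun F => F i j) l - R (Fs.map fun F => F i j) q (q :: l))
    (by
      rw [List.length_map, h3]
      exact fun cs h1 h2 => (b cs h1 h2).sub (a cs h1 h2))
    (fun z hz => by
      obtain ⟨c, hc, rfl⟩ := List.mem_map.mp hz
      exact ⟨h4 c hc, OneSide.const q⟩)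
  rw [List.length_map, h3] at c
  refine c.congr fun i j => ?_
  simp only [i5K, i5D, List.map_map]
  rfl

theorem i5_adm_const {I J : Type} {f : C(Ω, ℂ)} (hf : ‖f‖ ≤ 1) :
    Adm fun (_ : I) (_ : J) => f := by
  refine ⟨Unit, fun _ => f, fun _ _ => (), fun S ε hε => ?_, OneSide.const _, fun _ _ => rfl⟩
  rcases S.eq_empty_or_nonempty with rfl | ⟨c, hc⟩
  · simp
  · rw [Finset.sum_eq_single_of_mem c hc fun b _ hb => absurd (Subsingleton.elim b c) hb,
      norm_smul]
    exact mul_le_one₀ (hε c) (norm_nonneg _) hf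

theorem i5_norm_ind (S : Set Ω) : ‖ind S‖ ≤ 1 :=
  (ContinuousMap.norm_le _ zero_le_one).mpr (norm_ind_le S)

theorem i5K_sep [T2Space Ω] (h : RData' n R C) {H : ℕ} (hH : Dm Ω H = ∅) (q : Ω)
    (fs : List C(Ω, ℂ)) (hfs : fs.length = n) (l₁ l₂ : List Ω) :
    Continuous fun x => i5K R q fs (l₁ ++ x :: l₂) := by
  refine i5Sep.i5D q l₂ l₁ fun l₁ l₂ => (i5Sep_prodF fs l₁ l₂).sub ?_
  refine continuous_iff_continuousAt.mpr fun x => Metric.tendsto_nhds.mpr fun ε hε => ?_
  filter_upwards [h.base.uc_nhds hH x fs hfs (half_pos hε)] with w hw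
  rw [dist_comm, dist_eq_norm]
  refine (hw q _ _ (Sw.cons ?_ q)).trans_lt (half_lt_self hε)
  exact List.rel_append (Sw.refl x w l₁) (List.Forall₂.cons (Or.inr (Or.inl ⟨rfl, rfl⟩))
    (Sw.refl x w l₂))

theorem i5K_g2_const (h : RData' n R C) (q : Ω) (fs : List C(Ω, ℂ)) (h1 : fs.length = n)
    (h2 : ∀ f ∈ fs, ‖f‖ ≤ 1) (l : List Ω) (i : ℕ) (hi : i < l.length) (h3 : l.length + 1 = n) :
    G2 (fun u v => i5K R q fs (i5ins l i u v)) (2 ^ n * (1 + C)) := by
  refine (i5K_g2 h q (fs.map fun f (_ _ : Ω) => f)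
    (i5ins (l.map fun a (_ _ : Ω) => a) i (fun u _ => u) fun _ v => v) (by simpa using h1)
    (fun F hF => ?_) (by rw [i5ins_length (by simpa using hi)]; simpa using h3)
    fun c hc => ?_).congr fun u v => ?_
  · obtain ⟨f, hf, rfl⟩ := List.mem_map.mp hF
    exact i5_adm_const (h2 f hf)
  · rcases i5ins_mem hc with hc | rfl | rfl
    · obtain ⟨a, -, rfl⟩ := List.mem_map.mp hc
      exact OneSide.const a
    · exact OneSide.row _
    · exact OneSide.col _
  · simp [i5ins_map, Function.comp_def]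

omit [CompactSpace Ω] in
theorem i5_ind_mul {S T : Set Ω} (hS : IsClopen S) (h : T ⊆ S) : ind S * ind T = ind T := by
  ext x
  by_cases hx : x ∈ T
  · simp [ind_of_mem hS (h hx)]
  · simp [ind_of_notMem hx]

omit [CompactSpace Ω] in
theorem i5_ind_disj {S T : Set Ω} (h : Disjoint S T) (x : Ω) : ind S x = 0 ∨ ind T x = 0 := by
  by_cases hx : x ∈ S
  · exact Or.inr (ind_of_notMem (disjoint_left.mp h hx))
  · exact Or.inl (ind_of_notMem hx)

omit [CompactSpace Ω] in
theorem i5_ind_union {S T : Set Ω} (hS : IsClopen S) (hT : IsClopen T) (h : Disjoint S T) :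
    ind (S ∪ T) = ind S + (1 : ℂ) • ind T := by
  ext x
  by_cases hx : x ∈ S
  · simp [ind_of_mem (hS.union hT) (Or.inl hx), ind_of_mem hS hx,
      ind_of_notMem (disjoint_left.mp h hx)]
  · by_cases hy : x ∈ T
    · simp [ind_of_mem (hS.union hT) (Or.inr hy), ind_of_mem hT hy, ind_of_notMem hx]
    · simp [ind_of_notMem (S := S ∪ T) (not_or.mpr ⟨hx, hy⟩), ind_of_notMem hx, ind_of_notMem hy]

theorem i5K_unit' (h : RData' (n + 2) R C) (q : Ω) (O : Fin (n + 1) → Set Ω)
    (hO : ∀ k, IsClopen (O k) ∧ q ∉ O k) (hd : Pairwise fun k k' => Disjoint (O k) (O k'))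
    {E : Set Ω} (hE : IsClopen E) (hq : q ∉ E) (h0 : O 0 ⊆ E) (as : List Ω) :
    i5K R q (ind E :: List.ofFn fun k => ind (O k)) as =
      i5K R q (ind (O 0) :: List.ofFn fun k => ind (O k)) as := by
  have h4 : (List.ofFn fun k => ind (O k)).Pairwise fun f g => f * g = 0 := by
    refine List.pairwise_ofFn.mpr fun k k' hk => ?_
    ext x
    simpa using i5_ind_disj (hd hk.ne) x
  have h5 : ∀ g ∈ List.ofFn fun k => ind (O k), g q = 0 := fun g hg => by
    obtain ⟨k, rfl⟩ := (List.mem_ofFn' _ _).mp hg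
    exact ind_of_notMem (hO k).2
  rw [List.ofFn_succ] at h4 h5 ⊢
  exact i5K_unit h q _ _ _ _ (by simp) (i5_ind_mul hE h0) (i5_ind_mul (hO 0).1 subset_rfl)
    (ind_of_notMem hq) h4 h5 as

/-- the numbers attached to clopen sets and points. -/
noncomputable def i5a (R : List C(Ω, ℂ) → Ω → List Ω → ℂ) (q : Ω) (i : Fin (n + 1))
    (O : Fin (n + 1) → Set Ω) (γ : Fin (n + 1) → Ω) : ℂ :=
  (-1) ^ (i : ℕ) * i5K R q (ind (O 0) :: List.ofFn fun k => ind (O k))
    (i5ins (List.ofFn γ) i (γ i) (γ i))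

theorem i5a_sum (h : RData' (n + 2) R C) (q : Ω) (O : Fin (n + 1) → Set Ω)
    (γ : Fin (n + 1) → Ω) (hO : ∀ k, IsClopen (O k) ∧ q ∉ O k ∧ γ k ∈ O k)
    (hd : Pairwise fun k k' => Disjoint (O k) (O k')) : ∑ i, i5a R q i O γ = 1 := by
  have h5 : ∀ g ∈ ind (O 0) :: List.ofFn fun k => ind (O k), g q = 0 := fun g hg => by
    rcases List.mem_cons.mp hg with rfl | hg
    · exact ind_of_notMem (hO 0).2.1
    · obtain ⟨k, rfl⟩ := (List.mem_ofFn' _ _).mp hg
      exact ind_of_notMem (hO k).2.1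
  have h1 := i5D_bdF q (n + 1) γ
    fun l => R (ind (O 0) :: List.ofFn fun k => ind (O k)) q (q :: l)
  have h2 : ∀ l, bdF q l (fun l => R (ind (O 0) :: List.ofFn fun k => ind (O k)) q (q :: l)) =
      R (ind (O 0) :: List.ofFn fun k => ind (O k)) q (q :: q :: l) := fun l =>
    (sub_eq_zero.mp (h.base.cyc _ q (q :: l))).symm
  simp only [h2, add_eq_right] at h1
  simp only [i5a, i5K, i5D_sub, mul_sub, Finset.sum_sub_distrib, h1, sub_zero,
    i5D_prodF q _ _ h5]
  rw [Fin.sum_univ_succ, Finset.sum_eq_zero, add_zero]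
  · have e := i5_prodF_ofFn (n + 1) (fun k => ind (O k)) γ
    rw [List.ofFn_succ (f := γ)] at e ⊢
    rw [Fin.val_zero, i5ins_zero, prodF, e, ind_of_mem (hO 0).1 (hO 0).2.2,
      Finset.prod_eq_one fun k _ => ind_of_mem (hO k).1 (hO k).2.2]
    simp
  · intro j _
    rw [List.ofFn_succ (f := γ), List.ofFn_succ, Fin.val_succ, i5ins_succ, prodF]
    have hz : ∀ x ∈ i5ins (List.ofFn fun i : Fin n => γ i.succ) j (γ j.succ) (γ j.succ),
        ind (O 0) x = 0 := fun x hx => by
      obtain ⟨k, rfl⟩ : ∃ k : Fin n, γ k.succ = x := by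
        rcases i5ins_mem hx with hx | rfl | rfl
        · exact (List.mem_ofFn' _ _).mp hx
        · exact ⟨j, rfl⟩
        · exact ⟨j, rfl⟩
      exact ind_of_notMem (disjoint_left.mp (hd (Fin.succ_ne_zero k)) (hO _).2.2)
    generalize i5ins (List.ofFn fun i : Fin n => γ i.succ) j (γ j.succ) (γ j.succ) = l at hz
    cases l with
    | nil => simp [prodF]
    | cons x l => simp [prodF, hz x]

theorem i5a_g2 (h : RData' (n + 2) R C) (q : Ω) (L : ℕ) (W : Fin L → Set Ω) (γ : Fin L → Ω)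
    (hW : ∀ s, IsClopen (W s) ∧ q ∉ W s) (hd : Pairwise fun s s' => Disjoint (W s) (W s')) :
    ∃ b : Fin (n + 1) → (Fin (n + 1) → Fin L) → ℂ,
      (∀ i s, Function.Injective s → b i s = i5a R q i (W ∘ s) (γ ∘ s)) ∧
      ∀ i k l s, k ≠ l → G2 (fun x y : Fin L => b i (Function.update (Function.update s k x) l y))
        (2 ^ (n + 2) * (1 + C)) := by
  have hE : IsClopen (⋃ s, W s) := isClopen_iUnion_of_finite fun s => (hW s).1
  have hq : q ∉ ⋃ s, W s := by simpa using fun s => (hW s).2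
  refine ⟨fun i s => (-1) ^ (i : ℕ) * i5K R q (ind (⋃ s, W s) :: List.ofFn fun k => ind (W (s k)))
    (i5ins (List.ofFn fun k => γ (s k)) i (γ (s i)) (γ (s i))), fun i s hs => ?_,
    fun i k l s _ => ?_⟩
  · exact congrArg _ (i5K_unit' h q (W ∘ s) (fun k => hW _) (fun k k' hk => hd (hs.ne hk)) hE hq
      (subset_iUnion W _) _)
  · have hos : ∀ m, OneSide fun x y : Fin L => Function.update (Function.update s k x) l y m := by
      intro m
      by_cases h1 : m = l
      · exact Or.inr ⟨id, fun x y => by simp [h1]⟩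
      · exact Or.inl ⟨fun x => Function.update s k x m, fun x y => by simp [h1]⟩
    have hg : SignBdd fun s => ind (W s) := signBdd_of_disjoint _ (fun _ _ => norm_ind_le _ _)
      fun c c' hc => i5_ind_disj (hd hc)
    have := (i5K_g2 h q ((fun _ _ => ind (⋃ s, W s)) :: List.ofFn fun m (x y : Fin L) =>
      ind (W (Function.update (Function.update s k x) l y m)))
      (i5ins (List.ofFn fun m (x y : Fin L) => γ (Function.update (Function.update s k x) l y m)) i
        (fun x y => γ (Function.update (Function.update s k x) l y i))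
        fun x y => γ (Function.update (Function.update s k x) l y i)) (by simp)
      (fun F hF => ?_) (by rw [i5ins_length (by simp; omega)]; simp) fun c hc => ?_).smul
        ((-1) ^ (i : ℕ))
    · refine (this.mono (by simp)).congr fun x y => ?_
      simp only [List.map_cons, i5ins_map, List.map_ofFn, Function.comp_def]
    · rcases List.mem_cons.mp hF with rfl | hF
      · exact i5_adm_const (i5_norm_ind _)
      · obtain ⟨m, rfl⟩ := (List.mem_ofFn' _ _).mp hF
        exact ⟨_, _, _, hg, hos m, fun _ _ => rfl⟩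
    · rcases i5ins_mem hc with hc | rfl | rfl
      · obtain ⟨m, rfl⟩ := (List.mem_ofFn' _ _).mp hc
        exact (hos m).map γ
      · exact (hos i).map γ
      · exact (hos i).map γ

theorem i5a_phi [T2Space Ω] (h : RData' (n + 2) R C) {H : ℕ} (hH : Dm Ω H = ∅) (q : Ω)
    (i : Fin (n + 1)) (O : Fin (n + 1) → Set Ω) (γ : Fin (n + 1) → Ω)
    (hO : ∀ k, k ≠ i → IsClopen (O k) ∧ q ∉ O k)
    (hd : ∀ k k', k ≠ i → k' ≠ i → k ≠ k' → Disjoint (O k) (O k')) :
    ∃ φ, PhiData q φ (2 ^ (n + 2) * (1 + C)) ∧ ∀ W, IsClopen W → q ∉ W →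
      (∀ k, k ≠ i → Disjoint W (O k)) →
      ∀ g, i5a R q i (Function.update O i W) (Function.update γ i g) = φ W g g := by
  obtain ⟨Z, hZ, hZq, hZ1, hZ2⟩ : ∃ Z : Set Ω, IsClopen Z ∧ q ∉ Z ∧ (∀ k, k ≠ i → O k ⊆ Z) ∧
      ∀ W, (∀ k, k ≠ i → Disjoint W (O k)) → W \ Z = W := by
    refine ⟨⋃ k : {k // k ≠ i}, O k, isClopen_iUnion_of_finite fun k => (hO k k.2).1, ?_,
      fun k hk => subset_iUnion (fun k : {k // k ≠ i} => O k) ⟨k, hk⟩, fun W hW => ?_⟩
    · simpa using fun k hk => (hO k hk).2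
    · exact sdiff_eq_left.mpr (disjoint_iUnion_right.mpr fun k => hW k k.2)
  let l₁ := (List.ofFn fun k => ind (O k)).take i
  let l₂ := (List.ofFn fun k => ind (O k)).drop (i + 1)
  have hlen : ∀ e : C(Ω, ℂ), (e :: l₁).length + l₂.length + 1 = n + 2 := fun e => by
    simp [l₁, l₂]; omega
  have hlen' : ∀ e g : C(Ω, ℂ), ((e :: l₁) ++ g :: l₂).length = n + 2 := fun e g => by
    rw [← hlen e]; simp; omega
  have hl : ∀ X, (List.ofFn fun k => ind (Function.update O i X k)) = l₁ ++ ind X :: l₂ := by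
    intro X
    rw [← i5_ofFn_update]
    congr 1
    funext k
    exact Function.apply_update (fun _ => ind) O i X k
  let Ψ : Set Ω → C(Ω, ℂ) → Ω → Ω → ℂ := fun E g u v =>
    (-1) ^ (i : ℕ) * i5K R q ((ind E :: l₁) ++ g :: l₂) (i5ins (List.ofFn γ) i u v)
  have hlin : ∀ E f g (c : ℂ) u v, Ψ E (f + c • g) u v = Ψ E f u v + c * Ψ E g u v := by
    intro E f g c u v
    simp only [Ψ]
    rw [i5K_lin h q _ _ f g c (hlen _)]
    ring
  have hsum : ∀ E (Λ : Type) (s : Finset Λ) (θ : Λ → ℂ) (g : Λ → C(Ω, ℂ)) u v,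
      Ψ E (∑ c ∈ s, θ c • g c) u v = ∑ c ∈ s, θ c * Ψ E (g c) u v := by
    intro E Λ s θ g u v
    classical
    induction s using Finset.induction_on with
    | empty => simpa using hlin E 0 0 1 u v
    | insert a s ha ih =>
      rw [Finset.sum_insert ha, Finset.sum_insert ha, add_comm, hlin, ih, add_comm]
  have hφ : ∀ W, IsClopen W → q ∉ W → ∀ E, IsClopen E → q ∉ E → W ⊆ E → Z ⊆ E → ∀ u v,
      Ψ (Function.update O i (W \ Z) 0) (ind (W \ Z)) u v = Ψ E (ind (W \ Z)) u v := by
    intro W hW hq E hE hqE hWE hZE u v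
    simp only [Ψ, List.cons_append, ← hl]
    refine congrArg _ (i5K_unit' h q (Function.update O i (W \ Z)) (fun k => ?_)
      (fun k k' hk => ?_) hE hqE ?_ _).symm
    · by_cases hk : k = i
      · subst hk
        rw [Function.update_self]
        exact ⟨hW.diff hZ, fun hx => hq hx.1⟩
      · rw [Function.update_of_ne hk]
        exact hO k hk
    · show Disjoint _ _
      by_cases h1 : k = i
      · subst h1
        rw [Function.update_self, Function.update_of_ne hk.symm]
        exact disjoint_sdiff_left.mono_right (hZ1 k' hk.symm)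
      · rw [Function.update_of_ne h1]
        by_cases h2 : k' = i
        · subst h2
          rw [Function.update_self]
          exact disjoint_sdiff_right.mono_left (hZ1 k h1)
        · rw [Function.update_of_ne h2]
          exact hd k k' h1 h2 hk
    · by_cases h1 : 0 = i
      · subst h1
        rw [Function.update_self]
        exact sdiff_subset.trans hWE
      · rw [Function.update_of_ne h1]
        exact (hZ1 0 h1).trans hZE
  refine ⟨fun W u v => Ψ (Function.update O i (W \ Z) 0) (ind (W \ Z)) u v,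
    ⟨fun W W' hW hW' hq hq' hWW u v => ?_, fun Λ s W θ hW hWd hθ => ?_, fun W hW hq v => ?_,
      fun W hW hq u => ?_, fun W hW hq v => ?_, fun W hW hq u => ?_⟩, fun W hW hq hWO g => ?_⟩
  · have hE := (hW.union hW').union hZ
    have hqE : q ∉ W ∪ W' ∪ Z := by simp [hq, hq', hZq]
    rw [hφ _ (hW.union hW') (by simp [hq, hq']) _ hE hqE subset_union_left subset_union_right,
      hφ _ hW hq _ hE hqE (subset_union_left.trans subset_union_left) subset_union_right,
      hφ _ hW' hq' _ hE hqE (subset_union_right.trans subset_union_left) subset_union_right,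
      union_sdiff_distrib, i5_ind_union (hW.diff hZ) (hW'.diff hZ)
        (hWW.mono sdiff_subset sdiff_subset), hlin, one_mul]
  · have hE : IsClopen ((⋃ c ∈ s, W c) ∪ Z) :=
      (isClopen_biUnion_finset fun c _ => (hW c).1).union hZ
    have hqE : q ∉ (⋃ c ∈ s, W c) ∪ Z := by simp [hZq, fun c => (hW c).2]
    have hg : ‖∑ c ∈ s, θ c • ind (W c \ Z)‖ ≤ 1 :=
      signBdd_of_disjoint (fun c => ind (W c \ Z)) (fun _ _ => norm_ind_le _ _)
        (fun c c' hc => i5_ind_disj ((hWd hc).mono sdiff_subset sdiff_subset)) s θ hθ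
    have := (i5K_g2_const h q ((ind ((⋃ c ∈ s, W c) ∪ Z) :: l₁) ++
      (∑ c ∈ s, θ c • ind (W c \ Z)) :: l₂) (hlen' _ _) (fun f hf => ?_) (List.ofFn γ) i
      (by simp; omega) (by simp)).smul ((-1) ^ (i : ℕ))
    · refine (this.mono (by simp)).congr fun u v => ?_
      refine (hsum _ Λ s θ _ u v).trans (Finset.sum_congr rfl fun c hc => ?_)
      rw [hφ _ (hW c).1 (hW c).2 _ hE hqE
        ((subset_biUnion_of_mem (u := W) (Finset.mem_coe.mpr hc)).trans subset_union_left)
        subset_union_right]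
    · have hb : ∀ f ∈ List.ofFn fun k => ind (O k), ‖f‖ ≤ 1 := fun f hf => by
        obtain ⟨k, rfl⟩ := (List.mem_ofFn' _ _).mp hf
        exact i5_norm_ind _
      simp only [List.cons_append, List.mem_cons, List.mem_append] at hf
      rcases hf with rfl | hf | rfl | hf
      · exact i5_norm_ind _
      · exact hb f (List.mem_of_mem_take hf)
      · exact hg
      · exact hb f (List.mem_of_mem_drop hf)
  · exact continuous_const.mul (i5K_sep h hH q _ (hlen' _ _) _ _)
  · have := i5K_sep h hH q _ (hlen' (ind (Function.update O i (W \ Z) 0)) (ind (W \ Z)))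
      ((List.ofFn γ).take i ++ [u]) ((List.ofFn γ).drop (i + 1))
    simp only [List.append_assoc, List.singleton_append] at this
    exact continuous_const.mul this
  · simp only [Ψ, i5K]
    rw [i5D_van q _ _ (by simp [i5ins]), mul_zero]
  · simp only [Ψ, i5K]
    rw [i5D_van q _ _ (by simp [i5ins]), mul_zero]
  · simp only [i5a, Ψ, hZ2 W hWO, hl, i5ins_update, Function.update_self, List.cons_append]

omit [TopologicalSpace Ω] [CompactSpace Ω] in
theorem RData'.aData [TopologicalSpace Ω] [CompactSpace Ω] [T2Space Ω]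
    [TotallyDisconnectedSpace Ω] {H : ℕ} (hH : Dm Ω H = ∅) {n : ℕ} (hn : 1 ≤ n)
    {R : List C(Ω, ℂ) → Ω → List Ω → ℂ} {C : ℝ} (h : RData' (n + 1) R C) :
    ∃ C', ∀ q : Ω, ∃ a, AData n q a C' := by
  obtain ⟨m, rfl⟩ : ∃ m, n = m + 1 := ⟨n - 1, by omega⟩
  exact ⟨_, fun q => ⟨i5a R q, i5a_sum h q, i5a_phi h hH q, i5a_g2 h q⟩⟩

end Pool.Agent.MP_75da70_an.H8
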