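import Pool.Agent.MP_75da70_an.H8.IDefs

/-
The scalar function of a finite projective resolution, with linearity in the function arguments.
-/

namespace Pool.Agent.MP_75da70_an.H8

open Filter Topology Set H7

theorem i5_ML_lin {A : Type} [NonUnitalNormedRing A] [NormedSpace ℂ A] {X : BanMod A}
    {V : Type*} [NormedAddCommGroup V] [NormedSpace ℂ V] : ∀ (l₁ : List A) {k : ℕ}
    {θ : List A → X.carrier → V} {C : ℝ}, ML k θ C → ∀ l₂ : List A,
      l₁.length + l₂.length + 1 = k → ∀ (f g : A) (c : ℂ) (x : X.carrier),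
        θ (l₁ ++ (f + c • g) :: l₂) x = θ (l₁ ++ f :: l₂) x + c • θ (l₁ ++ g :: l₂) x
  | [], k + 1, θ, C, h, l₂, hl, f, g, c, x => by
    have hl' : l₂.length = k := by simpa using hl
    simp only [List.nil_append]
    rw [h.1 _ hl', h.2.1 _ hl']
  | a :: l₁, k + 1, θ, C, h, l₂, hl, f, g, c, x =>
    i5_ML_lin l₁ (h.2.2 a) l₂ (by simp at hl; omega) f g c x

variable {Ω : Type} [TopologicalSpace Ω] [CompactSpace Ω] [T2Space Ω]
  [TotallyDisconnectedSpace Ω]

omit [T2Space Ω] [TotallyDisconnectedSpace Ω] in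
theorem exists_RData' {n : ℕ} (hres : HasProjRes (QM Ω 0) n) :
    ∃ R C, RData' (Ω := Ω) n R C := by
  classical
  obtain ⟨r0, hr0, hcyc0, hcob0⟩ := exists_r hres
  let r : List C(Ω, ℂ) → (QM Ω 0).carrier → (QM Ω (n + 1)).carrier :=
    fun l g => if l.length = n then r0 l g else 0
  have hre : ∀ l, l.length = n → ∀ g, r0 l g = r l g := fun l hl g => by simp [r, hl]
  have hr : MLB n r := by
    obtain ⟨C, hC, h⟩ := hr0
    exact ⟨C, hC, h.congr hre⟩
  have hcyc : ∀ l g, Qbd Ω n (r l g) = 0 := fun l g => by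
    simp only [r]; split_ifs
    · exact hcyc0 l g
    · exact map_zero _
  have hcob : ∀ l, l.length = n + 1 → ∀ g, δ (QM Ω 0) (QM Ω (n + 1)) r l g =
      δ (QM Ω 0) (QM Ω (n + 1)) (iot (QM Ω) (QH Ω) n) l g := fun l hl g => by
    rw [← hcob0 l hl g]
    exact δ_congr _ _ _ (fun l' hl' g => (hre l' (by omega) g).symm) g
  have hT : ∀ fs, ∃ T : (QM Ω 0).carrier →L[ℂ] (QM Ω (n + 1)).carrier, ∀ g, r fs g = T g := by
    intro fs
    by_cases h : fs.length = n
    · obtain ⟨C, -, hC⟩ := hr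
      exact hC.clm fs h
    · exact ⟨0, fun g => by simp [r, h]⟩
  have hdl : ∀ y : ℕ × Ω, ‖dl y‖ ≤ 1 := fun y => by
    simpa using signBdd_dl {y} (fun _ => 1) (by simp)
  have hlim : ∀ fs p l, ∃ c, Tendsto (fun γ : ℕ => Qt.val (r fs (dl (γ, p))) l (γ, p))
      (hyperfilter ℕ) (𝓝 c) := fun fs p l => by
    obtain ⟨T, hT⟩ := hT fs
    refine exists_ulim _ _ (B := ‖T‖) (Eventually.of_forall fun γ => ?_)
    refine (Qt.norm_val_le _ _ _).trans ?_
    rw [hT]
    exact (T.le_opNorm _).trans (mul_le_of_le_one_right (norm_nonneg _) (hdl _))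
  choose R hR using hlim
  obtain ⟨C, hC, hML⟩ := id hr
  refine ⟨R, C, ⟨hC, fun fs p l => ?_, fun f fs hfs x as p => ?_,
    fun I J Fs p h1 h2 cs h3 h4 => ?_, fun fs hfs ε hε q B hB hq => ?_⟩,
    fun l₁ l₂ f g c hl p l => ?_⟩
  · refine tendsto_nhds_unique (bdF_tendsto _ p l _ _ (hR fs p)) ?_
    have : ∀ γ : ℕ, bdF p l (fun l' => Qt.val (r fs (dl (γ, p))) l' (γ, p)) = 0 := fun γ => by
      rw [← Qbd_val (r fs (dl (γ, p))) l (γ, p), hcyc]; rfl
    simp only [this]
    exact tendsto_const_nhds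
  · refine tendsto_nhds_unique (((hR fs p (x :: as)).const_mul (f x)).sub
      (DS_tendsto _ p (f :: fs) _ _ fun fs' => hR fs' p (x :: as))) ?_
    refine tendsto_const_nhds.congr fun γ => ?_
    rw [← δ_val hr f fs hfs x as (γ, p), hcob _ (by simp [hfs]),
      δ_val (iot_mlb _ _ n) f fs hfs x as (γ, p), iot_val n fs hfs, dl_val]
    simp only [Pi.single_eq_same, mul_one]
    congr 1
    refine DS_congr _ _ _ _ fun l' hl' => ?_
    rw [iot_val n l' (by simp at hl'; omega), dl_val]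
    simp
  · exact G2.of_tendsto (hyperfilter ℕ) (Eventually.of_forall fun γ =>
      hML.gbf (fun j => (γ, p j)) hC Fs h1 h2 cs h3 h4) tendsto_const_nhds fun i j => hR _ _ _
  · by_contra hcon
    push Not at hcon
    obtain ⟨w, rfl⟩ := hB.exists_eq_range (closure_nonempty_iff.mp ⟨q, hq⟩)
    have h1 : ∀ i, ∃ p l l', Sw q (w i) l l' ∧ ε < ‖R fs p l - R fs p l'‖ := fun i => by
      have := hcon (w i) ⟨i, rfl⟩
      simp only [Gd, not_forall, not_le] at this
      obtain ⟨p, l, l', h1, h2⟩ := this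
      exact ⟨p, l, l', h1, h2⟩
    choose p l l' hsw hlt using h1
    obtain ⟨T, hT⟩ := hT fs
    obtain ⟨v, γ, hv⟩ := hump (ev := ev0 (Ω := Ω)) norm_Q0 (fun g hg => ⟨emb0 g hg, rfl⟩) Prod.fst
      (fun i γ => (evL (k := n + 1) (l i) (γ, p i) - evL (k := n + 1) (l' i) (γ, p i)).comp T)
      (fun i γ => (γ, p i)) (fun _ _ => rfl) dl dl_val hε fun i => by
        have := ((hR fs (p i) (l i)).sub (hR fs (p i) (l' i))).norm.eventually (lt_mem_nhds (hlt i))
        filter_upwards [this] with γ hγ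
        rw [hT] at hγ
        exact hγ.le
    obtain ⟨E, hE, hE'⟩ := Qt.uc (T v) (ε / 4) (by positivity)
    have hq1 : {z | (q, z) ∈ E} ∈ 𝓝 q :=
      (by fun_prop : Continuous fun z => (q, z)).continuousAt.preimage_mem_nhds
        (mem_nhdsSet_iff_forall.mp hE _ (mem_diagonal q))
    have hq2 : {z | (z, q) ∈ E} ∈ 𝓝 q :=
      (by fun_prop : Continuous fun z => (z, q)).continuousAt.preimage_mem_nhds
        (mem_nhdsSet_iff_forall.mp hE _ (mem_diagonal q))
    obtain ⟨_, ⟨ha, hb⟩, i, rfl⟩ := mem_closure_iff_nhds.mp hq _ (inter_mem hq1 hq2)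
    have h2 := hE' (l i) (l' i) ((hsw i).imp fun a b hab => by
      rcases hab with rfl | ⟨rfl, rfl⟩ | ⟨rfl, rfl⟩
      · exact mem_of_mem_nhdsSet_diag hE _
      · exact ha
      · exact hb) (γ i, p i)
    have h3 : ε / 2 ≤ ‖Qt.val (T v) (l i) (γ i, p i) - Qt.val (T v) (l' i) (γ i, p i)‖ := hv i
    linarith
  · refine tendsto_nhds_unique (hR _ p l) (((hR _ p l).add ((hR _ p l).const_mul c)).congr
      fun γ => ?_)
    rw [i5_ML_lin l₁ hML l₂ hl]
    rfl

end Pool.Agent.MP_75da70_an.H8
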